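import Pool.Agent.H95.GY.Targets

/-!
# AD: the adjoint representation
-/

set_option autoImplicit false

open Filter Topology MeasureTheory Set
open scoped Pointwise

universe u v

namespace Pool.Agent.H18.GY

open Pool.Agent.H95.GY

private theorem chart_zero {Q : Type u} [Group Q] [TopologicalSpace Q] {n : ℕ}
    {e : (Fin n → ℝ) → ℝ → Q} (h : Chart Q n e) (t : ℝ) : e 0 t = 1 := by
  have h1 := h.smul 0 0 t
  rw [zero_smul, zero_mul] at h1
  rw [h1, (h.ops 0).zero]

/-- a map into a compact set is continuous if its composition with an injective map is. -/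
private theorem continuous_of_comp {K : Type u} {V : Type} {Q : Type v} [TopologicalSpace K]
    [TopologicalSpace V] [TopologicalSpace Q] [T2Space Q] {C : Set V} (hC : IsCompact C)
    {E : V → Q} (hE : Continuous E) (hinj : InjOn E C) {f : K → V} (hf : ∀ k, f k ∈ C)
    (hEf : Continuous fun k => E (f k)) : Continuous f := by
  have hcomp : CompactSpace C := isCompact_iff_compactSpace.1 hC
  have hcl : IsClosedEmbedding (fun x : C => E x) :=
    (hE.comp continuous_subtype_val).isClosedEmbedding (fun x y hxy =>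
      Subtype.ext (hinj x.2 y.2 hxy))
  have hf' : Continuous (fun k => (⟨f k, hf k⟩ : C)) := by
    rw [hcl.isInducing.continuous_iff]
    exact hEf
  exact continuous_subtype_val.comp hf'

theorem pf_AD (hFUN : T_FUN.{u}) : T_AD.{u} := by
  intro Q _ _ _ _ n e he K _ _ _ _ c hc
  have hex : ∀ k : K, ∃ p : (Fin n → ℝ) →ₗ[ℝ] (Fin n → ℝ),
      ∀ v t, e (p v) t = c k * e v t * (c k)⁻¹ := by
    intro k
    have hcont : Continuous ((MulAut.conj (c k)).toMonoidHom : Q →* Q) := by
      have : ((MulAut.conj (c k)).toMonoidHom : Q → Q) = fun x => c k * x * (c k)⁻¹ := by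
        funext x
        simp [MulAut.conj_apply]
      rw [this]
      exact (continuous_const.mul continuous_id).mul continuous_const
    obtain ⟨p, hp, -⟩ := hFUN Q Q n n e e (MulAut.conj (c k)).toMonoidHom he he hcont
    refine ⟨p, fun v t => ?_⟩
    rw [hp]
    simp [MulAut.conj_apply]
  choose ρ hρ using hex
  have hmul : ∀ k l v, ρ (k * l) v = ρ k (ρ l v) := by
    intro k l v
    apply he.inj
    funext t
    rw [hρ, hρ, hρ, map_mul]
    group
  have hone : ∀ v, ρ 1 v = v := by
    intro v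
    apply he.inj
    funext t
    rw [hρ, map_one]
    simp
  refine ⟨ρ, hρ, hmul, hone, ?_⟩
  obtain ⟨δ, hδ, hinj⟩ := he.loc
  set W : Set Q := (fun v => e v 1) '' Metric.closedBall 0 (δ / 2) with hW
  have hWn : W ∈ 𝓝 (1 : Q) := he.nhd (δ / 2) (by positivity)
  -- step 1
  have h1 : ∀ᶠ x in 𝓝 (1 : Q), ∀ k ∈ (univ : Set K), c k * x * (c k)⁻¹ ∈ W := by
    apply isCompact_univ.eventually_forall_of_forall_eventually
    intro k _
    have hct : Continuous (fun z : Q × K => c z.2 * z.1 * (c z.2)⁻¹) := by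
      have h2 : Continuous (fun z : Q × K => c z.2) := hc.comp continuous_snd
      exact (h2.mul continuous_fst).mul h2.inv
    have hval : c k * 1 * (c k)⁻¹ = 1 := by simp
    have h3 : Tendsto (fun z : Q × K => c z.2 * z.1 * (c z.2)⁻¹) (𝓝 (1, k))
        (𝓝 (c k * 1 * (c k)⁻¹)) := hct.tendsto (1, k)
    rw [hval] at h3
    exact h3 hWn
  -- step 2
  have h2 : ∀ᶠ v in 𝓝 (0 : Fin n → ℝ), ∀ k : K, c k * e v 1 * (c k)⁻¹ ∈ W := by
    have ht : Tendsto (fun v => e v 1) (𝓝 0) (𝓝 (1 : Q)) := by
      have := he.cont.tendsto 0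
      simp only [chart_zero he] at this
      exact this
    filter_upwards [ht.eventually h1] with v hv k
    exact hv k (mem_univ k)
  obtain ⟨ε, hε, hball⟩ := Metric.eventually_nhds_iff.1 h2
  have hball' : ∀ v : Fin n → ℝ, ‖v‖ ≤ ε / 2 → ∀ k : K, c k * e v 1 * (c k)⁻¹ ∈ W := by
    intro v hv k
    refine hball ?_ k
    rw [dist_zero_right]
    linarith
  -- the bound
  have hbd : ∀ (v : Fin n → ℝ), ‖v‖ ≤ ε / 2 → ∀ k : K, ‖ρ k v‖ ≤ δ / 2 := by
    intro v hv k
    by_contra hcon
    push Not at hcon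
    have hpos : 0 < ‖ρ k v‖ := lt_trans (by positivity) hcon
    obtain ⟨s, hs0, hs1, hs2, hs3⟩ : ∃ s : ℝ, 0 < s ∧ s ≤ 1 ∧ δ / 2 < ‖s • ρ k v‖ ∧
        ‖s • ρ k v‖ ≤ δ := by
      by_cases hle : ‖ρ k v‖ ≤ δ
      · exact ⟨1, one_pos, le_rfl, by rwa [one_smul], by rwa [one_smul]⟩
      · push Not at hle
        refine ⟨δ / ‖ρ k v‖, by positivity, ?_, ?_, ?_⟩
        · rw [div_le_one hpos]
          exact hle.le
        · rw [norm_smul, Real.norm_of_nonneg (by positivity), div_mul_cancel₀ _ hpos.ne']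
          linarith
        · rw [norm_smul, Real.norm_of_nonneg (by positivity), div_mul_cancel₀ _ hpos.ne']
    have hsv : ‖s • v‖ ≤ ε / 2 := by
      rw [norm_smul, Real.norm_of_nonneg hs0.le]
      calc s * ‖v‖ ≤ 1 * ‖v‖ := mul_le_mul_of_nonneg_right hs1 (norm_nonneg _)
        _ ≤ ε / 2 := by rw [one_mul]; exact hv
    have hmem := hball' (s • v) hsv k
    have heq : e (s • ρ k v) 1 = c k * e (s • v) 1 * (c k)⁻¹ := by
      rw [← hρ, map_smul]
    rw [← heq] at hmem
    obtain ⟨w, hw, hww⟩ := hmem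
    have hw' : ‖w‖ ≤ δ / 2 := by simpa using hw
    have hwe : w = s • ρ k v := by
      apply hinj _ _ hww
      · rw [mem_closedBall_zero_iff]
        linarith
      · rw [mem_closedBall_zero_iff]
        exact hs3
    rw [hwe] at hw'
    linarith
  intro v
  -- scaling
  set t : ℝ := ε / 2 / (‖v‖ + 1) with ht
  have hvp : 0 < ‖v‖ + 1 := by positivity
  have htp : 0 < t := by positivity
  have htv : ‖t • v‖ ≤ ε / 2 := by
    rw [norm_smul, Real.norm_of_nonneg htp.le, ht, div_mul_eq_mul_div, div_le_iff₀ hvp]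
    have := norm_nonneg v
    nlinarith
  have hcontt : Continuous fun k => ρ k (t • v) := by
    refine continuous_of_comp (C := Metric.closedBall 0 (δ / 2))
      (isCompact_closedBall _ _) he.cont ?_ ?_ ?_
    · exact hinj.mono (Metric.closedBall_subset_closedBall (by linarith))
    · intro k
      rw [mem_closedBall_zero_iff]
      exact hbd _ htv k
    · have : (fun k => e (ρ k (t • v)) 1) = fun k => c k * e (t • v) 1 * (c k)⁻¹ := by
        funext k
        rw [hρ]
      rw [this]
      exact (hc.mul continuous_const).mul hc.inv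
  have heq : (fun k => ρ k v) = fun k => t⁻¹ • ρ k (t • v) := by
    funext k
    rw [map_smul, smul_smul, inv_mul_cancel₀ htp.ne', one_smul]
  rw [heq]
  exact hcontt.const_smul t⁻¹

end Pool.Agent.H18.GY
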