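import Pool.Agent.H95.GY.Targets

/-!
# CUB: a space of covering dimension at most d contains no cube of dimension d + 1
-/

set_option autoImplicit false

open Filter Topology MeasureTheory Set
open scoped Pointwise

universe u v

namespace Pool.Agent.H18.GY

open Pool.Agent.H95.GY

theorem covDimLE_of_isClosedEmbedding {X : Type u} {Y : Type v} [TopologicalSpace X]
    [TopologicalSpace Y] {n : ℕ} (h : CovDimLE X n) (f : Y → X) (hf : IsClosedEmbedding f) :
    CovDimLE Y n := by
  intro m U hU hcov
  rcases Nat.eq_zero_or_pos m with rfl | hm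
  · exact ⟨U, hU, fun _ => subset_rfl, hcov, fun x => by
      obtain ⟨i, -⟩ := hcov x
      exact i.elim0⟩
  have hex : ∀ i, ∃ W : Set X, IsOpen W ∧ f ⁻¹' W = U i := fun i =>
    hf.isInducing.isOpen_iff.1 (hU i)
  choose W hW hWU using hex
  obtain ⟨V, hV, hVU, hVc, hVn⟩ := h m (fun i => W i ∪ (range f)ᶜ)
    (fun i => (hW i).union hf.isClosed_range.isOpen_compl) (by
      intro x
      by_cases hx : x ∈ range f
      · obtain ⟨y, rfl⟩ := hx
        obtain ⟨i, hi⟩ := hcov y
        rw [← hWU i] at hi
        exact ⟨i, Or.inl hi⟩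
      · exact ⟨⟨0, hm⟩, Or.inr hx⟩)
  refine ⟨fun i => f ⁻¹' V i, fun i => (hV i).preimage hf.continuous, ?_, fun y => hVc (f y),
    fun y => hVn (f y)⟩
  intro i y hy
  rcases hVU i hy with h | h
  · rw [← hWU i]
    exact h
  · exact absurd (mem_range_self y) h

theorem pf_CUB (hLEB : T_LEB) : T_CUB.{u} := by
  intro X _ _ d f hf hinj hcov
  refine hLEB d ?_
  let F : Icc (0 : Fin (d + 1) → ℝ) 1 → X := (Icc (0 : Fin (d + 1) → ℝ) 1).restrict f
  have hFc : Continuous F := hf.restrict
  have hFi : Function.Injective F := hinj.injective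
  haveI : CompactSpace (Icc (0 : Fin (d + 1) → ℝ) 1) := isCompact_iff_compactSpace.1 isCompact_Icc
  have hFe : IsClosedEmbedding F := hFc.isClosedEmbedding hFi
  exact covDimLE_of_isClosedEmbedding hcov F hFe

end Pool.Agent.H18.GY
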